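import Pool.Agent.Helper62.NT.Goals

/-! Packet NT-NEJ (MP_8ff381_an). -/

set_option autoImplicit false

noncomputable section

namespace Pool.Agent.Helper83.NT.NEJ

open Filter Topology
open Pool.Agent.Helper62.NT

theorem t (hN : S_NOG) : S_NEJ := by
  intro X _ _ j hd hj C
  obtain ⟨N, hNo⟩ := hN (3 * max C 0 / 2 + 1 / 4) (3 / 4) (by norm_num)
  refine ⟨N, ?_⟩
  intro M _ f r hr h1 h2 s hs hCT
  obtain ⟨m, hm1, hm2⟩ := hCT
  have hC : 0 ≤ max C 0 := le_max_right _ _
  have h2' : ∀ x y, dist (f x) (f y) ≤ max C 0 * r * dist x y := by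
    intro x y
    refine (h2 x y).trans ?_
    have : C * r ≤ max C 0 * r := mul_le_mul_of_nonneg_right (le_max_left _ _) hr.le
    exact mul_le_mul_of_nonneg_right this dist_nonneg
  set ρ : ℝ := 3 / 2 * r * s with hρ
  have hρ0 : 0 < ρ := by positivity
  let F : List ℕ → X := fun u => ρ⁻¹ • f (m u)
  have hG : ∀ u, ∃ a : ℕ →₀ ℝ, dist (F u) (j a) < 1 / 8 := fun u =>
    hd.exists_dist_lt (F u) (by norm_num)
  choose G hG using hG
  have hdist : ∀ u v, dist (F u) (F v) = ρ⁻¹ * dist (f (m u)) (f (m v)) := by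
    intro u v
    simp only [F]
    rw [dist_smul₀, Real.norm_eq_abs, abs_of_pos (inv_pos.2 hρ0)]
  have hV : ∀ u v, V (fun t => G u t - G v t) = dist (j (G u)) (j (G v)) := by
    intro u v
    rw [dist_eq_norm, ← map_sub, hj]
    rfl
  have hup : ∀ u v, V (fun t => G u t - G v t) ≤ ρ⁻¹ * dist (f (m u)) (f (m v)) + 1 / 4 := by
    intro u v
    rw [hV, ← hdist]
    have e1 := dist_triangle4 (j (G u)) (F u) (F v) (j (G v))
    have e2 := hG u
    have e3 := hG v
    rw [dist_comm] at e2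
    linarith
  have hlo : ∀ u v, ρ⁻¹ * dist (f (m u)) (f (m v)) - 1 / 4 ≤ V (fun t => G u t - G v t) := by
    intro u v
    rw [hV, ← hdist]
    have e1 := dist_triangle4 (F u) (j (G u)) (j (G v)) (F v)
    have e2 := hG u
    have e3 := hG v
    rw [dist_comm (F v)] at e3
    linarith
  refine hNo ⟨fun u => G u, fun u => ?_, fun n u hu => ?_, fun x y u n n' hn hxy hlen => ?_⟩
  · refine ⟨(G u).support.sup id + 1, fun t ht => ?_⟩
    by_contra h
    have h3 : t ∈ (G u).support := Finsupp.mem_support_iff.2 h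
    have h4 : t ≤ (G u).support.sup id := Finset.le_sup (f := id) h3
    omega
  · refine (hup _ _).trans ?_
    have e1 := h2' (m (n :: u)) (m u)
    have e2 := hm1 n u hu
    have e3 : max C 0 * r * dist (m (n :: u)) (m u) ≤ max C 0 * r * (9 / 4 * s) :=
      mul_le_mul_of_nonneg_left e2 (by positivity)
    have e4 : ρ⁻¹ * dist (f (m (n :: u))) (f (m u)) ≤ ρ⁻¹ * (max C 0 * r * (9 / 4 * s)) :=
      mul_le_mul_of_nonneg_left (e1.trans e3) (by positivity)
    have e5 : ρ⁻¹ * (max C 0 * r * (9 / 4 * s)) = 3 * max C 0 / 2 := by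
      rw [hρ]
      field_simp
      ring
    linarith
  · refine le_trans ?_ (hlo _ _)
    have e1 := h1 (m (x ++ n :: u)) (m (y ++ n' :: u))
    have e2 := hm2 x y u n n' hn hxy hlen
    have e3 : r * (3 / 2 * (x.length + 1) * s) ≤ dist (f (m (x ++ n :: u))) (f (m (y ++ n' :: u))) :=
      (mul_le_mul_of_nonneg_left e2 hr.le).trans e1
    have e4 := mul_le_mul_of_nonneg_left e3 (inv_pos.2 hρ0).le
    have e5 : ρ⁻¹ * (r * (3 / 2 * ((x.length : ℝ) + 1) * s)) = (x.length : ℝ) + 1 := by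
      rw [hρ]
      field_simp
    rw [e5] at e4
    have e6 : (0 : ℝ) ≤ x.length := Nat.cast_nonneg _
    linarith

end Pool.Agent.Helper83.NT.NEJ
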